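import Mathlib
import Pool.Agent.P.MP_da739a_co.Topo

-- part Pool.Agent.P.MP_c49aeb_co.Alg
section

/-! Coefficient extraction over the field with four elements. -/

open Finset

namespace Pool.Agent.P.MP_c49aeb_co

/-- the field with four elements -/
abbrev F4 := QuadraticAlgebra (ZMod 2) 1 1

/-- its elements -/
def q : Fin 4 → F4 := ![⟨0, 0⟩, ⟨1, 0⟩, ⟨0, 1⟩, ⟨1, 1⟩]

/-- index of the difference -/
def ty : Fin 4 → Fin 4 → Fin 4 := ![![0, 1, 2, 3], ![1, 0, 3, 2], ![2, 3, 0, 1], ![3, 2, 1, 0]]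

lemma q_ty : ∀ a b, q a - q b = q (ty a b) := by decide

lemma ty_ne : ∀ a b, a ≠ b → ty a b ≠ 0 := by decide

lemma ty_self : ∀ a, q (ty a a) = 0 := by decide

lemma ty_bip : ∀ τ : Fin 4, τ ≠ 0 → ∃ β : Fin 4 → Bool, ∀ a b, a ≠ b → ty a b ≠ τ → β a ≠ β b := by
  decide

lemma perm_bip : ∀ σ : Equiv.Perm (Fin 4), σ ≠ 1 →
    ∃ β : Fin 4 → Bool, ∀ a b, σ a = a → σ b = b → a ≠ b → β a ≠ β b := by
  decide +kernel

lemma q_prod : q 1 * q 2 * q 3 = 1 := by decide

lemma pow_sum : ∀ k : Fin 3, ∑ j, q j ^ (k : ℕ) = 0 := by decide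

lemma pattern : ∀ n : Fin 4 → Fin 7, ∑ j, (n j : ℕ) = 6 →
    ∑ σ : Equiv.Perm (Fin 4), (∏ j, q (σ j) ^ (n j : ℕ) -
      if ∀ j, (n j : ℕ) = σ j then 1 else 0) = 0 := by
  decide +kernel

lemma free_sum {G X M : Type} [Group G] [Fintype G] [MulAction G X] [DecidableEq X]
    [AddCommMonoid M] (φ : X → M) (S : Finset X) (hcl : ∀ g : G, ∀ x ∈ S, g • x ∈ S)
    (hfree : ∀ g : G, ∀ x ∈ S, g • x = x → g = 1) (hφ : ∀ x ∈ S, ∑ g : G, φ (g • x) = 0) :
    ∑ x ∈ S, φ x = 0 := by
  induction S using Finset.strongInduction with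
  | H S ih =>
    rcases S.eq_empty_or_nonempty with rfl | ⟨x, hx⟩
    · simp
    let O : Finset X := univ.image fun g : G => g • x
    have hO : O ⊆ S := by
      intro y hy
      obtain ⟨g, _, rfl⟩ := mem_image.1 hy
      exact hcl g x hx
    have hxO : x ∈ O := mem_image.2 ⟨1, mem_univ _, one_smul _ _⟩
    rw [← Finset.sum_sdiff hO, ih (S \ O) (sdiff_ssubset hO ⟨x, hxO⟩), zero_add,
      Finset.sum_image, hφ x hx]
    · intro g _ h _ hgh
      have : (h⁻¹ * g) • x = x := by
        simp only at hgh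
        rw [mul_smul, hgh, inv_smul_smul]
      have := hfree _ x hx this
      rw [inv_mul_eq_one] at this
      exact this.symm
    · intro g y hy
      rw [mem_sdiff] at hy ⊢
      refine ⟨hcl g y hy.1, fun h => hy.2 ?_⟩
      obtain ⟨g', _, hg'⟩ := mem_image.1 h
      exact mem_image.2 ⟨g⁻¹ * g', mem_univ _, by rw [mul_smul, hg', inv_smul_smul]⟩
    · intro g y hy
      exact hfree g y (mem_sdiff.1 hy).1
    · intro y hy
      exact hφ y (mem_sdiff.1 hy).1

end Pool.Agent.P.MP_c49aeb_co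
end

-- part Pool.Agent.P.MP_c49aeb_co.Bip
section

/-! Edge bound for bipartite plane graphs, from the abstract dual. -/

open Finset

namespace Pool.Agent.P.MP_c49aeb_co

open Pool.Agent.P.MP_da739a_co

variable {V E : Type} [Fintype V] [Fintype E] [DecidableEq V]

omit [Fintype V] in
lemma other_edge (s t : E → V) (hst : ∀ e, s e ≠ t e) (z : E → ℤ)
    (hz : ∀ v, bdry s t z v = 0) (e : E) (he : z e ≠ 0) (v : V) (hv : s e = v ∨ t e = v) :
    ∃ e', e' ≠ e ∧ z e' ≠ 0 ∧ (s e' = v ∨ t e' = v) := by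
  by_contra! h
  have h1 := hz v
  unfold bdry at h1
  rw [Finset.sum_eq_single e] at h1
  · have := hst e
    rcases hv with hv | hv
    · have h2 : t e ≠ v := fun h2 => this (hv.trans h2.symm)
      simp [hv, h2] at h1
      exact he h1
    · have h2 : s e ≠ v := fun h2 => this (h2.trans hv.symm)
      simp [hv, h2] at h1
      exact he h1
  · intro e' _ hne
    by_cases h2 : z e' = 0
    · simp [h2]
    · have := h e' hne h2
      simp [this.1, this.2]
  · simp

omit [Fintype V] in
lemma four_le (s t : E → V) (b : V → Bool) (hb : ∀ e, b (s e) ≠ b (t e))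
    (hsimple : ∀ e e', (s e = s e' ∧ t e = t e') ∨ (s e = t e' ∧ t e = s e') → e = e')
    (z : E → ℤ) (hz : ∀ v, bdry s t z v = 0) (hne : z ≠ 0) :
    4 ≤ #{e | z e ≠ 0} := by
  classical
  have hst : ∀ e, s e ≠ t e := fun e h => hb e (by rw [h])
  obtain ⟨e, he⟩ : ∃ e, z e ≠ 0 := by
    by_contra! h
    exact hne (funext h)
  obtain ⟨e1, n1, z1, i1⟩ := other_edge s t hst z hz e he (s e) (Or.inl rfl)
  obtain ⟨e2, n2, z2, i2⟩ := other_edge s t hst z hz e he (t e) (Or.inr rfl)
  obtain ⟨u, hu, hbu, hu'⟩ : ∃ u, (s e1 = u ∨ t e1 = u) ∧ b u ≠ b (s e) ∧ u ≠ t e := by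
    rcases i1 with h | h
    · refine ⟨t e1, Or.inr rfl, by rw [← h]; exact (hb e1).symm, fun h' => n1 ?_⟩
      exact hsimple _ _ (Or.inl ⟨h, h'⟩)
    · refine ⟨s e1, Or.inl rfl, by rw [← h]; exact hb e1, fun h' => n1 ?_⟩
      exact hsimple _ _ (Or.inr ⟨h', h⟩)
  obtain ⟨e3, n3, z3, i3⟩ := other_edge s t hst z hz e1 z1 u hu
  have hbe := hb e
  have hbt : b u = b (t e) := by
    revert hbu hbe
    cases b u <;> cases b (s e) <;> cases b (t e) <;> simp
  have n12 : e1 ≠ e2 := by
    rintro rfl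
    rcases i1 with h | h <;> rcases i2 with h' | h'
    · exact hst e (h.symm.trans h')
    · exact n1 (hsimple _ _ (Or.inl ⟨h, h'⟩))
    · exact n1 (hsimple _ _ (Or.inr ⟨h', h⟩))
    · exact hst e (h.symm.trans h')
  have n3e : e3 ≠ e := by
    rintro rfl
    rcases i3 with h | h
    · exact hbu (by rw [h])
    · exact hu' h.symm
  have n32 : e3 ≠ e2 := by
    rintro rfl
    have := hb e3
    rcases i3 with h | h <;> rcases i2 with h' | h'
    · exact hu' (h.symm.trans h')
    · exact this (by rw [h, h', hbt])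
    · exact this (by rw [h, h', hbt])
    · exact hu' (h.symm.trans h')
  have hsub : ({e, e1, e2, e3} : Finset E) ⊆ univ.filter fun e => z e ≠ 0 := by
    intro x hx
    simp only [mem_insert, mem_singleton] at hx
    rcases hx with rfl | rfl | rfl | rfl <;> simpa
  refine le_trans (le_of_eq ?_) (card_le_card hsub)
  rw [card_insert_of_notMem, card_insert_of_notMem, card_pair n32.symm]
  · simp [n12, n3.symm]
  · simp [n1.symm, n2.symm, n3e.symm]

lemma sum_bdry (s t : E → V) (z : E → ℤ) : ∑ v, bdry s t z v = 0 := by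
  unfold bdry
  rw [Finset.sum_comm]
  refine Finset.sum_eq_zero fun e _ => ?_
  simp [Finset.sum_sub_distrib]

/-- boundary map with one vertex left out -/
def bmap (s t : E → V) (v0 : V) : (E → ℤ) →ₗ[ℤ] ({v // v ≠ v0} → ℤ) where
  toFun z v := bdry s t z v.1
  map_add' x y := by
    funext v
    simp only [bdry, Pi.add_apply, ← Finset.sum_add_distrib]
    refine Finset.sum_congr rfl fun e _ => ?_
    split_ifs <;> ring
  map_smul' c x := by
    funext v
    simp only [bdry, Pi.smul_apply, smul_eq_mul, RingHom.id_apply, Finset.mul_sum]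
    refine Finset.sum_congr rfl fun e _ => ?_
    split_ifs <;> ring

lemma ker_bmap (s t : E → V) (v0 : V) (z : E → ℤ) (hz : bmap s t v0 z = 0) (v : V) :
    bdry s t z v = 0 := by
  have h : ∀ v, v ≠ v0 → bdry s t z v = 0 := fun v hv => congrFun hz ⟨v, hv⟩
  by_cases hv : v = v0
  · have := sum_bdry s t z
    rw [Finset.sum_eq_single v0] at this
    · rwa [hv]
    · intro w _ hw
      exact h w hw
    · simp
  · exact h v hv

lemma card_le_rank (s t : E → V) (v0 : V) :
    Fintype.card E + 1 ≤ Fintype.card V + Module.finrank ℤ (LinearMap.ker (bmap s t v0)) := by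
  have h1 := (LinearMap.ker (bmap s t v0)).finrank_quotient_add_finrank
  rw [LinearEquiv.finrank_eq (bmap s t v0).quotKerEquivRange] at h1
  have h2 := (LinearMap.range (bmap s t v0)).finrank_le
  simp only [Module.finrank_fintype_fun_eq_card] at h1 h2
  have h3 : Fintype.card {v // v ≠ v0} + 1 = Fintype.card V := by
    have : Nonempty V := ⟨v0⟩
    have := Fintype.card_pos (α := V)
    simp only [ne_eq, Fintype.card_subtype_compl, Fintype.card_unique]
    omega
  omega

theorem bip_of_dual (s t : E → V) (b : V → Bool) (hb : ∀ e, b (s e) ≠ b (t e))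
    (hsimple : ∀ e e', (s e = s e' ∧ t e = t e') ∨ (s e = t e' ∧ t e = s e') → e = e')
    (hV : 3 ≤ Fintype.card V) {F : Type} (L R : E → F)
    (h1 : ∀ z : E → ℤ, (∀ v, bdry s t z v = 0) → ∃ w : F → ℤ, ∀ e, z e = w (L e) - w (R e))
    (h2 : ∀ (w : F → ℤ) v, bdry s t (fun e => w (L e) - w (R e)) v = 0) :
    Fintype.card E + 4 ≤ 2 * Fintype.card V := by
  classical
  obtain ⟨v0⟩ : Nonempty V := Fintype.card_pos_iff.1 (by omega)
  have hr := card_le_rank s t v0
  let δ : F → E → ℤ := fun f e => (if L e = f then 1 else 0) - (if R e = f then 1 else 0)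
  let T : Finset F := univ.image L ∪ univ.image R
  let F0 : Finset F := T.filter fun f => δ f ≠ 0
  have hδ : ∀ w : F → ℤ, (fun e => w (L e) - w (R e)) = ∑ f ∈ F0, w f • δ f := by
    intro w
    have : ∑ f ∈ F0, w f • δ f = ∑ f ∈ T, w f • δ f := by
      refine Finset.sum_subset (filter_subset _ _) fun f hf hf' => ?_
      have : δ f = 0 := by
        by_contra h
        exact hf' (mem_filter.2 ⟨hf, h⟩)
      simp [this]
    rw [this]
    funext e
    simp only [Finset.sum_apply, Pi.smul_apply, smul_eq_mul, δ, mul_sub, mul_ite, mul_one,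
      mul_zero, Finset.sum_sub_distrib, Finset.sum_ite_eq]
    simp [T]
  have h4 : 4 * #F0 ≤ 2 * Fintype.card E := by
    have a1 : ∀ f ∈ F0, 4 ≤ #{e | δ f e ≠ 0} := fun f hf =>
      four_le s t b hb hsimple (δ f) (fun v => h2 (fun g => if g = f then 1 else 0) v)
        (mem_filter.1 hf).2
    have a2 : ∑ f ∈ F0, #{e | δ f e ≠ 0} = ∑ e, #{f ∈ F0 | δ f e ≠ 0} := by
      simp only [card_filter]
      exact Finset.sum_comm
    have a3 : ∀ e, #{f ∈ F0 | δ f e ≠ 0} ≤ 2 := by
      intro e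
      refine le_trans (card_le_card (t := {L e, R e}) fun f hf => ?_) card_le_two
      have := (mem_filter.1 hf).2
      by_contra h
      simp only [mem_insert, mem_singleton, not_or] at h
      apply this
      simp [δ, Ne.symm h.1, Ne.symm h.2]
    calc 4 * #F0 = ∑ f ∈ F0, 4 := by simp [mul_comm]
      _ ≤ _ := Finset.sum_le_sum a1
      _ = _ := a2
      _ ≤ ∑ _e : E, 2 := Finset.sum_le_sum fun e _ => a3 e
      _ = _ := by simp [mul_comm]
  have key : ∀ (S : Finset F) (c : (F → ℤ) → ℤ), S ⊆ F0 →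
      (∀ w : F → ℤ, ∀ f ∈ F0, f ∉ S → w f = c w) →
      Module.finrank ℤ (LinearMap.ker (bmap s t v0)) ≤ #S := by
    intro S c hS hc
    have hle : LinearMap.ker (bmap s t v0) ≤ Submodule.span ℤ (S.image δ : Set (E → ℤ)) := by
      intro z hz
      obtain ⟨w, hw⟩ := h1 z (ker_bmap s t v0 z hz)
      have e1 : z = fun e => (w (L e) - c w) - (w (R e) - c w) := by
        funext e
        rw [hw]; ring
      rw [e1, hδ fun f => w f - c w]
      refine Submodule.sum_mem _ fun f hf => ?_
      by_cases hfS : f ∈ S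
      · exact Submodule.smul_mem _ _ (Submodule.subset_span (by
          simp only [coe_image]; exact ⟨f, hfS, rfl⟩))
      · simp [hc w f hf hfS]
    exact (Submodule.finrank_mono hle).trans
      ((finrank_span_finset_le_card _).trans card_image_le)
  rcases F0.eq_empty_or_nonempty with h | ⟨f0, hf0⟩
  · have := key ∅ (fun _ => 0) (empty_subset _) (by simp [h])
    simp only [card_empty] at this
    omega
  · have := key (F0.erase f0) (fun w => w f0) (erase_subset _ _) (by
      intro w f hf hf'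
      have : f = f0 := by
        by_contra h
        exact hf' (mem_erase.2 ⟨h, hf⟩)
      rw [this])
    rw [card_erase_of_mem hf0] at this
    have := card_pos.2 ⟨f0, hf0⟩
    omega

end Pool.Agent.P.MP_c49aeb_co
end

-- part Pool.Agent.P.MP_c49aeb_co.Main
section

/-! A parity criterion for 4-choosability of planar triangulations. -/

open Finset MvPolynomial

namespace Pool.Agent.P.MP_c49aeb_co

open Pool.Agent.P.MP_da739a_co

lemma pattern' (a : Fin 6 → Fin 4) :
    ∑ σ : Equiv.Perm (Fin 4), (∏ i, q (σ (a i)) -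
      if ∀ j : Fin 4, #{i | σ (a i) = j} = j then 1 else 0) = 0 := by
  let n : Fin 4 → Fin 7 := fun j => ⟨#{i | a i = j}, Nat.lt_succ_of_le
    ((card_le_univ _).trans (by simp))⟩
  have hn : ∑ j, (n j : ℕ) = 6 := by
    have := (card_eq_sum_card_fiberwise (s := univ) (f := a) (t := univ)
      fun _ _ => mem_univ _).symm
    simpa using this
  refine Eq.trans (Finset.sum_congr rfl fun σ _ => ?_) (pattern n hn)
  have e1 : ∏ i, q (σ (a i)) = ∏ j, q (σ j) ^ (n j : ℕ) := by
    rw [← Finset.prod_fiberwise' univ a (fun j => q (σ j))]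
    simp only [prod_const, n]
  have e2 : (∀ j : Fin 4, #{i | σ (a i) = j} = j) ↔ ∀ j, (n j : ℕ) = σ j := by
    have k : ∀ j, #{i | σ (a i) = σ j} = (n j : ℕ) := by
      intro j
      simp only [n, σ.injective.eq_iff]
    constructor
    · intro h j
      rw [← k, h]
    · intro h j
      obtain ⟨j, rfl⟩ := σ.surjective j
      rw [k, h]
  rw [e1, if_congr e2 rfl rfl]

section
variable {V E : Type} [Fintype V] [Fintype E] [DecidableEq V]

omit [DecidableEq V] in
lemma prod_eq_one (s t : E → V)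
    (hbip : ∀ (p : E → Prop) [DecidablePred p] (β : V → Bool), (∀ e, p e → β (s e) ≠ β (t e)) →
      #{e | p e} + 4 ≤ 2 * Fintype.card V)
    (hm : Fintype.card E + 6 = 3 * Fintype.card V) (c : V → Fin 4) (hc : ∀ e, c (s e) ≠ c (t e)) :
    ∏ e, (q (c (s e)) - q (c (t e))) = 1 := by
  let τ : E → Fin 4 := fun e => ty (c (s e)) (c (t e))
  let m : Fin 4 → ℕ := fun j => #{e | τ e = j}
  have h0 : m 0 = 0 := by
    simp only [m, card_eq_zero, filter_eq_empty_iff]
    exact fun e _ => ty_ne _ _ (hc e)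
  have hs : ∑ j, m j = Fintype.card E := by
    rw [← card_univ]
    exact (card_eq_sum_card_fiberwise (f := τ) (t := univ) fun _ _ => mem_univ _).symm
  have hj : ∀ j, j ≠ 0 → Fintype.card E + 4 ≤ 2 * Fintype.card V + m j := by
    intro j hj
    obtain ⟨β, hβ⟩ := ty_bip j hj
    have a1 := hbip (fun e => ¬ τ e = j) (fun v => β (c v)) fun e he => hβ _ _ (hc e) he
    have a2 := card_filter_add_card_filter_not (s := univ) (fun e => τ e = j)
    rw [card_univ] at a2
    simp only [m]
    omega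
  have h1 := hj 1 (by decide)
  have h2 := hj 2 (by decide)
  have h3 := hj 3 (by decide)
  rw [Fin.sum_univ_four] at hs
  have e2 : m 2 = m 1 := by omega
  have e3 : m 3 = m 1 := by omega
  simp only [q_ty]
  change ∏ e, q (τ e) = 1
  rw [← Finset.prod_fiberwise' univ τ q]
  simp only [prod_const]
  change ∏ j, q j ^ m j = 1
  rw [Fin.prod_univ_four, h0, e2, e3, pow_zero, one_mul, ← mul_pow, ← mul_pow, q_prod, one_pow]

lemma sum_colourings (s t : E → V)
    (hbip : ∀ (p : E → Prop) [DecidablePred p] (β : V → Bool), (∀ e, p e → β (s e) ≠ β (t e)) →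
      #{e | p e} + 4 ≤ 2 * Fintype.card V)
    (hm : Fintype.card E + 6 = 3 * Fintype.card V) (hV : 3 ≤ Fintype.card V) (x : Fin 6 → V) :
    ∑ c : V → Fin 4, (∏ e, (q (c (s e)) - q (c (t e)))) * ∏ i, q (c (x i)) =
      (#{c : V → Fin 4 | (∀ e, c (s e) ≠ c (t e)) ∧ ∀ j : Fin 4, #{i | c (x i) = j} = j} : F4) := by
  classical
  let S : Finset (V → Fin 4) := {c | ∀ e, c (s e) ≠ c (t e)}
  have a1 : ∑ c : V → Fin 4, (∏ e, (q (c (s e)) - q (c (t e)))) * ∏ i, q (c (x i)) =
      ∑ c ∈ S, ∏ i, q (c (x i)) := by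
    rw [Finset.sum_filter]
    refine Finset.sum_congr rfl fun c _ => ?_
    split_ifs with h
    · rw [prod_eq_one s t hbip hm c h, one_mul]
    · push Not at h
      obtain ⟨e, he⟩ := h
      rw [Finset.prod_eq_zero (mem_univ e) (by rw [he, sub_self]), zero_mul]
  have a2 : (#{c : V → Fin 4 | (∀ e, c (s e) ≠ c (t e)) ∧
      ∀ j : Fin 4, #{i | c (x i) = j} = j} : F4) =
      ∑ c ∈ S, if ∀ j : Fin 4, #{i | c (x i) = j} = j then 1 else 0 := by
    rw [Finset.sum_boole, Finset.filter_filter]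
  rw [a1, a2, ← sub_eq_zero, ← Finset.sum_sub_distrib]
  refine free_sum (G := Equiv.Perm (Fin 4)) _ S ?_ ?_ ?_
  · intro g c hc
    simp only [S, mem_filter, mem_univ, true_and] at hc ⊢
    intro e h
    exact hc e (g.injective h)
  · intro g c hc hg
    simp only [S, mem_filter, mem_univ, true_and] at hc
    by_contra h
    obtain ⟨β, hβ⟩ := perm_bip g h
    have := hbip (fun _ => True) (fun v => β (c v)) fun e _ =>
      hβ _ _ (congrFun hg _) (congrFun hg _) (hc e)
    simp only [filter_true, card_univ] at this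
    omega
  · intro c _
    exact pattern' fun i => c (x i)

theorem choose_of_odd (s t : E → V)
    (hbip : ∀ (p : E → Prop) [DecidablePred p] (β : V → Bool), (∀ e, p e → β (s e) ≠ β (t e)) →
      #{e | p e} + 4 ≤ 2 * Fintype.card V)
    (hm : Fintype.card E + 6 = 3 * Fintype.card V) (hV : 3 ≤ Fintype.card V) (x : Fin 6 → V)
    (hodd : Odd #{c : V → Fin 4 | (∀ e, c (s e) ≠ c (t e)) ∧
      ∀ j : Fin 4, #{i | c (x i) = j} = j})
    (L : V → Finset ℕ) (hL : ∀ v, 4 ≤ #(L v) + #{i | x i = v}) :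
    ∃ c : V → ℕ, (∀ v, c v ∈ L v) ∧ ∀ e, c (s e) ≠ c (t e) := by
  classical
  let P : MvPolynomial V ℤ := ∏ e, (X (s e) - X (t e))
  let μ : V → ℕ := fun v => #{i | x i = v}
  have hP : P.IsHomogeneous (Fintype.card E) := by
    have := IsHomogeneous.prod (σ := V) (R := ℤ) univ (fun e => X (s e) - X (t e)) (fun _ => 1)
      fun e _ => (isHomogeneous_X ℤ _).sub (isHomogeneous_X ℤ _)
    simpa using this
  have hμ : ∑ v, μ v = 6 := by
    have := (card_eq_sum_card_fiberwise (s := univ) (f := x) (t := univ)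
      fun _ _ => mem_univ _).symm
    simpa using this
  have h1 := sum_colourings s t hbip hm hV x
  have h2 : ∀ c : V → Fin 4, (∏ e, (q (c (s e)) - q (c (t e)))) * ∏ i, q (c (x i)) =
      ∑ d ∈ P.support, ((P.coeff d : ℤ) : F4) * ∏ v, q (c v) ^ (d v + μ v) := by
    intro c
    have b1 : ∏ e, (q (c (s e)) - q (c (t e))) =
        eval₂ (Int.castRingHom F4) (fun v => q (c v)) P := by
      simp [P, eval₂_prod]
    have b2 : ∏ i, q (c (x i)) = ∏ v, q (c v) ^ μ v := by
      rw [← Finset.prod_fiberwise' univ x (fun v => q (c v))]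
      simp [μ]
    rw [b1, b2, eval₂_eq', Finset.sum_mul]
    refine Finset.sum_congr rfl fun d _ => ?_
    simp only [pow_add, Finset.prod_mul_distrib, mul_assoc, eq_intCast]
  simp only [h2] at h1
  rw [Finset.sum_comm] at h1
  have h3 : ∀ d : V →₀ ℕ, ∑ c : V → Fin 4, ((P.coeff d : ℤ) : F4) * ∏ v, q (c v) ^ (d v + μ v) =
      ((P.coeff d : ℤ) : F4) * ∏ v, ∑ j, q j ^ (d v + μ v) := by
    intro d
    rw [← Finset.mul_sum, Finset.prod_univ_sum, Fintype.piFinset_univ]
  simp only [h3] at h1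
  have h4 : ∑ d ∈ P.support, ((P.coeff d : ℤ) : F4) * ∏ v, ∑ j, q j ^ (d v + μ v) ≠ 0 := by
    rw [h1]
    obtain ⟨k, hk⟩ := hodd
    rw [hk]
    have : (2 : F4) = 0 := by decide
    push_cast
    rw [this]
    simp
  obtain ⟨d, hd, hd'⟩ := Finset.exists_ne_zero_of_sum_ne_zero h4
  have hdeg : ∑ v, d v = Fintype.card E := by
    have := hP (mem_support_iff.1 hd)
    rw [← this, Finsupp.weight_apply, Finsupp.sum_fintype _ _ (by simp)]
    simp
  have h5 : ∀ v, 3 ≤ d v + μ v := by
    intro v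
    by_contra h
    apply hd'
    rw [Finset.prod_eq_zero (mem_univ v) (pow_sum ⟨d v + μ v, by omega⟩), mul_zero]
  have h6 : ∀ v, d v + μ v = 3 := by
    have : ∑ _v : V, 3 = ∑ v, (d v + μ v) := by
      rw [Finset.sum_add_distrib, hdeg, hμ]
      simp [hm, mul_comm]
    intro v
    exact ((Finset.sum_eq_sum_iff_of_le fun v _ => h5 v).1 this v (mem_univ _)).symm
  have hne : P ≠ 0 := fun h => by simp [h] at hd
  obtain ⟨y, hy, hy'⟩ := combinatorial_nullstellensatz_exists_eval_nonzero P d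
    (mem_support_iff.1 hd) (by
      rw [hP.totalDegree hne, Finsupp.degree_eq_sum, hdeg])
    (fun v => (L v).image (Nat.cast : ℕ → ℤ)) (fun v => by
      rw [card_image_of_injective _ Nat.cast_injective]
      have := hL v
      have := h6 v
      simp only [μ] at this
      omega)
  choose c hc hc' using fun v => mem_image.1 (hy v)
  refine ⟨c, hc, fun e h => hy' ?_⟩
  simp only [P, map_prod, map_sub, eval_X]
  exact Finset.prod_eq_zero (mem_univ e) (by rw [← hc', ← hc', h, sub_self])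

end

theorem main (V : Type) [Fintype V] (G : SimpleGraph V)
    (hpl : ∃ (f : V → ℂ) (γ : V → V → unitInterval → ℂ),
        Function.Injective f ∧
        (∀ u v, G.Adj u v →
          Continuous (γ u v) ∧ Function.Injective (γ u v) ∧
          γ u v 0 = f u ∧ γ u v 1 = f v ∧
          ∀ (w : V) (t : unitInterval), γ u v t = f w → (w = u ∨ w = v)) ∧
        (∀ u v u' v', G.Adj u v → G.Adj u' v' →
          ¬ ((u = u' ∧ v = v') ∨ (u = v' ∧ v = u')) →
          ∀ s t : unitInterval, γ u v s = γ u' v' t → ∃ w : V, γ u v s = f w))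
    (hm : G.edgeSet.ncard + 6 = 3 * Fintype.card V) (x : Fin 6 → V)
    (hodd : Odd {c : V → Fin 4 | (∀ u v, G.Adj u v → c u ≠ c v) ∧
      ∀ j : Fin 4, {i | c (x i) = j}.ncard = j}.ncard)
    (L : V → Finset ℕ) (hL : ∀ v, 4 ≤ (L v).card + {i | x i = v}.ncard) :
    ∃ c : V → ℕ, (∀ v, c v ∈ L v) ∧ ∀ u v, G.Adj u v → c u ≠ c v := by
  classical
  obtain ⟨p, γ, hp, hγ, hx⟩ := hpl
  let s : G.edgeSet → V := fun e => e.1.out.1
  let t : G.edgeSet → V := fun e => e.1.out.2
  have hst : ∀ e : G.edgeSet, s(s e, t e) = e.1 := fun e => Quot.out_eq e.1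
  have hadj : ∀ e : G.edgeSet, G.Adj (s e) (t e) := fun e => by
    rw [← SimpleGraph.mem_edgeSet, hst]; exact e.2
  have hne : ∀ e, s e ≠ t e := fun e => (hadj e).ne
  have hsimple : ∀ e e', (s e = s e' ∧ t e = t e') ∨ (s e = t e' ∧ t e = s e') → e = e' := by
    rintro e e' (⟨h1, h2⟩ | ⟨h1, h2⟩)
    · apply Subtype.ext; rw [← hst, ← hst, h1, h2]
    · apply Subtype.ext; rw [← hst, ← hst, h1, h2, Sym2.eq_swap]
  have hprop : ∀ {α : Type} (c : V → α),
      (∀ u v, G.Adj u v → c u ≠ c v) ↔ ∀ e, c (s e) ≠ c (t e) := by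
    intro α c
    refine ⟨fun h e => h _ _ (hadj e), fun h u v huv => ?_⟩
    have h1 := h ⟨s(u, v), huv⟩
    rcases Sym2.eq_iff.1 (hst ⟨s(u, v), huv⟩) with ⟨a, b⟩ | ⟨a, b⟩ <;> rw [a, b] at h1
    · exact h1
    · exact h1.symm
  have hcard : ∀ {α : Type} [Fintype α] (r : α → Prop) [DecidablePred r],
      {a | r a}.ncard = #{a | r a} := by
    intro α _ r _
    rw [← Set.ncard_coe_finset]
    congr 1
    ext a
    simp
  have hm' : Fintype.card G.edgeSet + 6 = 3 * Fintype.card V := by
    rw [← hm, ← Nat.card_coe_set_eq, Nat.card_eq_fintype_card]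
  simp only [hcard, hprop] at hodd hL
  have hV : 3 ≤ Fintype.card V := by
    obtain ⟨c, hc⟩ := card_pos.1 hodd.pos
    have hc := (mem_filter.1 hc).2.2
    have h3 : ∀ j : Fin 3, ∃ v, c v = j.succ := by
      intro j
      obtain ⟨i, hi⟩ := card_pos.1 (show 0 < #{i | c (x i) = j.succ} by rw [hc]; simp)
      exact ⟨x i, (mem_filter.1 hi).2⟩
    choose g hg using h3
    have := Fintype.card_le_of_injective g fun a b hab => by
      apply Fin.succ_injective
      rw [← hg, ← hg, hab]
    simpa using this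
  have hin : ∀ e : G.edgeSet, ∀ τ ∈ Set.Ioo (0 : ℝ) 1, ∀ w,
      γ (s e) (t e) (Set.projIcc 0 1 zero_le_one τ) ≠ p w := by
    intro e τ hτ w h
    obtain ⟨-, h2, h3, h4, h5⟩ := hγ _ _ (hadj e)
    rw [Set.projIcc_of_mem _ (Set.Ioo_subset_Icc_self hτ)] at h
    rcases h5 w _ h with rfl | rfl
    · have := congrArg Subtype.val (h2 (h.trans h3.symm))
      exact hτ.1.ne' this
    · have := congrArg Subtype.val (h2 (h.trans h4.symm))
      exact hτ.2.ne this
  obtain ⟨c, hc, hc'⟩ := choose_of_odd s t (by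
    intro r _ β hβ
    let s' : {e // r e} → V := fun e => s e.1
    let t' : {e // r e} → V := fun e => t e.1
    obtain ⟨U, ρ, hU, hρ, hE⟩ := grid_of_drawing s' t' (fun e => hne e.1)
      (fun v => Complex.equivRealProd (p v))
      (fun e τ => Complex.equivRealProd (γ (s e.1) (t e.1) (Set.projIcc 0 1 zero_le_one τ)))
      (Complex.equivRealProd.injective.comp hp)
      (fun e => (Complex.equivRealProdCLM.continuous.comp
        ((hγ _ _ (hadj e.1)).1.comp continuous_projIcc)).continuousOn)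
      (fun e a ha b hb hab => by
        have := (hγ _ _ (hadj e.1)).2.1 (Complex.equivRealProd.injective hab)
        rw [Set.projIcc_of_mem _ ha, Set.projIcc_of_mem _ hb] at this
        exact congrArg Subtype.val this)
      (fun e => by
        rw [Set.projIcc_left]
        exact congrArg _ (hγ _ _ (hadj e.1)).2.2.1)
      (fun e => by
        rw [Set.projIcc_right]
        exact congrArg _ (hγ _ _ (hadj e.1)).2.2.2.1)
      (fun e τ hτ w h => hin e.1 τ hτ w (Complex.equivRealProd.injective h))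
      (fun e f hef τ hτ τ' _ h => by
        obtain ⟨w, hw⟩ := hx _ _ _ _ (hadj e.1) (hadj f.1)
          (fun h => hef (Subtype.ext (hsimple _ _ h))) _ _ (Complex.equivRealProd.injective h)
        exact hin e.1 τ hτ w hw)
    obtain ⟨F, L, R, hF1, hF2⟩ := dual_of_grid s' t' (fun e => hne e.1)
      (fun e e' h => Subtype.ext (hsimple _ _ h)) U hU ρ hρ hE
    have := bip_of_dual s' t' β (fun e => hβ e.1 e.2)
      (fun e e' h => Subtype.ext (hsimple _ _ h)) hV L R hF1 hF2
    rwa [Fintype.card_subtype] at this) hm' hV x hodd L hL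
  exact ⟨c, hc, (hprop c).2 hc'⟩

end Pool.Agent.P.MP_c49aeb_co
end
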